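import Pool.Agent.H64.BrodDefs
import Pool.Agent.H64.Brod2

set_option autoImplicit false

namespace Pool.Agent.Results.MP_3b2c1c_al.QtildeNeD

open Pool.Agent.H64.Brod

/-- Some locally indicable group lies outside the smallest extension-closed quasivariety
containing the integers. -/
theorem result : ∃ (G : Type) (_ : Group G), LocallyIndicable G ∧ ¬ InQtilde G :=
  Pool.Agent.H64.Brod.main

end Pool.Agent.Results.MP_3b2c1c_al.QtildeNeD
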